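import Pool.Agent.MP_f6b137_pr.H74.Base

/-! Reduction to the angular variable. -/

namespace Pool.Agent.MP_f6b137_pr.H94

open MeasureTheory Filter Polynomial Set Metric Pool.Agent.MP_f6b137_pr.H74
open scoped Real

lemma cos_up {θ θ₀ t : ℝ} (h0 : θ₀ ∈ Icc 0 π) (h : |θ - θ₀| ≤ t) :
    |Real.cos θ - Real.cos θ₀| ≤ t * Real.sin θ₀ + t ^ 2 := by
  have hs := Real.sin_nonneg_of_mem_Icc h0
  have e : Real.cos θ - Real.cos θ₀ =
      Real.cos θ₀ * (Real.cos (θ - θ₀) - 1) - Real.sin θ₀ * Real.sin (θ - θ₀) := by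
    have := Real.cos_add θ₀ (θ - θ₀)
    rw [add_sub_cancel] at this
    rw [this]
    ring
  have h1 : |Real.cos (θ - θ₀) - 1| ≤ t ^ 2 := by
    have h2 := Real.one_sub_sq_div_two_le_cos (x := θ - θ₀)
    have h3 := Real.cos_le_one (θ - θ₀)
    have h4 : (θ - θ₀) ^ 2 ≤ t ^ 2 := sq_le_sq' (abs_le.1 h).1 (abs_le.1 h).2
    rw [abs_le]
    constructor <;> nlinarith [sq_nonneg (θ - θ₀)]
  have h5 : |Real.sin (θ - θ₀)| ≤ t := Real.abs_sin_le_abs.trans h
  rw [e]
  refine (abs_sub _ _).trans ?_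
  rw [abs_mul, abs_mul, abs_of_nonneg hs]
  have h6 := Real.abs_cos_le_one θ₀
  nlinarith [abs_nonneg (Real.cos (θ - θ₀) - 1), abs_nonneg (Real.cos θ₀)]

lemma cos_low_aux {A u δ x : ℝ} (hδ : 0 < δ) (hu : δ / 2 ≤ u) (h1 : u ≤ A) (h2 : A + u ≤ π)
    (hx : x ≤ Real.sin A + Real.sin u) : (δ * x + δ ^ 2) / 10 ≤ 2 * Real.sin A * Real.sin u := by
  have hπ := Real.pi_gt_three
  have hπ' := Real.pi_lt_d2
  have h3 : 2 / π * u ≤ Real.sin u := Real.mul_le_sin (by linarith) (by linarith)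
  have h4 : Real.sin u ≤ Real.sin A := by
    rcases le_total A (π / 2) with h | h
    · exact Real.sin_le_sin_of_le_of_le_pi_div_two (by linarith) h h1
    · rw [← Real.sin_pi_sub A]
      exact Real.sin_le_sin_of_le_of_le_pi_div_two (by linarith) (by linarith) (by linarith)
  have h5 : δ ≤ 3.15 * Real.sin u := by
    rw [div_mul_eq_mul_div, div_le_iff₀ (by linarith)] at h3
    have h6 : 0 ≤ Real.sin u := Real.sin_nonneg_of_nonneg_of_le_pi (by linarith) (by linarith)
    nlinarith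
  have h7 : δ * x ≤ δ * (2 * Real.sin A) := mul_le_mul_of_nonneg_left (by linarith) hδ.le
  have h8 : δ * δ ≤ δ * (3.15 * Real.sin A) := mul_le_mul_of_nonneg_left (by linarith) hδ.le
  have h9 : Real.sin A * δ ≤ Real.sin A * (3.15 * Real.sin u) :=
    mul_le_mul_of_nonneg_left h5 (by linarith)
  have h10 : 0 ≤ Real.sin A * δ := mul_nonneg (by linarith) hδ.le
  nlinarith

lemma cos_low {θ θ₀ δ : ℝ} (h0 : θ₀ ∈ Icc 0 π) (h1 : θ ∈ Icc 0 π) (hδ : 0 < δ)
    (h : δ ≤ |θ - θ₀|) : (δ * Real.sin θ₀ + δ ^ 2) / 10 ≤ |Real.cos θ - Real.cos θ₀| := by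
  have key : ∀ A u : ℝ, 0 ≤ u → u ≤ A → A + u ≤ π →
      Real.sin (A + u) ≤ Real.sin A + Real.sin u ∧ Real.sin (A - u) ≤ Real.sin A + Real.sin u := by
    intro A u a1 a2 a3
    have b1 : 0 ≤ Real.sin u := Real.sin_nonneg_of_nonneg_of_le_pi a1 (by linarith)
    have b2 : 0 ≤ Real.sin A := Real.sin_nonneg_of_nonneg_of_le_pi (by linarith) (by linarith)
    rw [Real.sin_add, Real.sin_sub]
    constructor <;> nlinarith [Real.cos_le_one u, Real.cos_le_one A, Real.neg_one_le_cos A]
  rcases le_total θ θ₀ with h2 | h2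
  · rw [abs_of_nonpos (by linarith)] at h
    have h3 := (key ((θ + θ₀) / 2) ((θ₀ - θ) / 2) (by linarith) (by linarith [h1.1])
      (by linarith [h0.2])).1
    rw [show (θ + θ₀) / 2 + (θ₀ - θ) / 2 = θ₀ by ring] at h3
    refine (cos_low_aux hδ (by linarith) (by linarith [h1.1]) (by linarith [h0.2]) h3).trans ?_
    refine le_trans (le_of_eq ?_) (le_abs_self _)
    rw [Real.cos_sub_cos, show (θ - θ₀) / 2 = -((θ₀ - θ) / 2) by ring, Real.sin_neg]
    ring
  · rw [abs_of_nonneg (by linarith)] at h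
    have h3 := (key ((θ + θ₀) / 2) ((θ - θ₀) / 2) (by linarith) (by linarith [h0.1])
      (by linarith [h1.2])).2
    rw [show (θ + θ₀) / 2 - (θ - θ₀) / 2 = θ₀ by ring] at h3
    refine (cos_low_aux hδ (by linarith) (by linarith [h0.1]) (by linarith [h1.2]) h3).trans ?_
    refine le_trans (le_of_eq ?_) (neg_le_abs _)
    rw [Real.cos_sub_cos]
    ring

lemma dbl_iter {ν : Measure ℝ} [IsFiniteMeasure ν] {L : NNReal} {x : ℝ}
    (h : ∀ r : ℝ, 0 < r → ν (ball x (2 * r)) ≤ L * ν (ball x r)) {s : ℕ} (hs : (L : ℝ) ≤ 2 ^ s)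
    {r Λ : ℝ} (hr : 0 < r) (hΛ : 1 ≤ Λ) :
    ν.real (ball x (Λ * r)) ≤ (2 * Λ) ^ s * ν.real (ball x r) := by
  have h1 : ∀ k : ℕ, ν.real (ball x (2 ^ k * r)) ≤ (2 ^ k) ^ s * ν.real (ball x r) := by
    intro k
    induction k with
    | zero => simp
    | succ k ih =>
      have h2 := ENNReal.toReal_mono (ENNReal.mul_ne_top ENNReal.coe_ne_top (measure_ne_top _ _))
        (h (2 ^ k * r) (by positivity))
      rw [ENNReal.toReal_mul, ENNReal.coe_toReal] at h2
      rw [pow_succ', mul_assoc, mul_pow, mul_assoc]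
      exact h2.trans (mul_le_mul hs ih measureReal_nonneg (by positivity))
  obtain ⟨n, hn1, hn2⟩ := exists_nat_pow_near hΛ one_lt_two
  refine (measureReal_mono (ball_subset_ball (mul_le_mul_of_nonneg_right hn2.le hr.le))).trans
    ((h1 (n + 1)).trans (mul_le_mul_of_nonneg_right ?_ measureReal_nonneg))
  refine pow_le_pow_left₀ (by positivity) ?_ s
  rw [pow_succ']
  linarith

theorem rowRED : RowRED := by
  intro ν α β L p hαβ hfin hac hsupp hac' hdbl hdeg hon
  obtain ⟨a, b, ha, hα, hβ⟩ : ∃ a b : ℝ, 0 < a ∧ α = b - a ∧ β = b + a :=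
    ⟨(β - α) / 2, (α + β) / 2, by linarith, by ring, by ring⟩
  let g : ℝ → ℝ := fun x => Real.arccos ((x - b) / a)
  let h : ℝ → ℝ := fun θ => a * Real.cos θ + b
  have hgm : Measurable g := (Real.continuous_arccos.comp (by fun_prop)).measurable
  have hgI : ∀ x, g x ∈ Icc 0 π := fun x => ⟨Real.arccos_nonneg _, Real.arccos_le_pi _⟩
  have hhg : ∀ x ∈ Icc α β, h (g x) = x := fun x hx => by
    show a * Real.cos (Real.arccos ((x - b) / a)) + b = x
    rw [Real.cos_arccos (by rw [le_div_iff₀ ha]; linarith [hx.1])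
      (by rw [div_le_iff₀ ha]; linarith [hx.2])]
    field_simp
    ring
  have hgh : ∀ θ ∈ Icc 0 π, g (h θ) = θ := fun θ hθ => by
    show Real.arccos ((a * Real.cos θ + b - b) / a) = θ
    rw [add_sub_cancel_right, mul_div_cancel_left₀ _ ha.ne', Real.arccos_cos hθ.1 hθ.2]
  have hhI : ∀ θ, h θ ∈ Icc α β := fun θ => by
    have h1 := Real.cos_le_one θ
    have h2 := Real.neg_one_le_cos θ
    constructor
    · show α ≤ a * Real.cos θ + b
      nlinarith
    · show a * Real.cos θ + b ≤ β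
      nlinarith
  have hae : ∀ᵐ x ∂ν, x ∈ Icc α β := hsupp
  have hdist : ∀ x ∈ Icc α β, ∀ θ, dist x (h θ) = a * |Real.cos (g x) - Real.cos θ| := by
    intro x hx θ
    conv_lhs => rw [← hhg x hx]
    show |a * Real.cos (g x) + b - (a * Real.cos θ + b)| = _
    rw [add_sub_add_right_eq_sub, ← mul_sub, abs_mul, abs_of_pos ha]
  obtain ⟨s, hs⟩ := pow_unbounded_of_one_lt (L : ℝ) one_lt_two
  refine ⟨ν.map g, 40 ^ s, 2 * s, fun k => (p k).comp (C a * X + C b), ⟨inferInstance, ?_, ?_, ?_⟩,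
    ⟨fun k => ?_, fun j k => ?_⟩, ?_, ?_, fun n c => ?_⟩
  · rw [Measure.map_apply hgm measurableSet_Icc.compl]
    rw [show g ⁻¹' (Icc 0 π)ᶜ = ∅ from eq_empty_of_forall_notMem fun x hx => hx (hgI x)]
    exact measure_empty
  · rw [map_measureReal_apply hgm MeasurableSet.univ, preimage_univ]
    refine ENNReal.toReal_pos (fun h0 => ?_) (measure_ne_top _ _)
    have h1 := hac' h0
    rw [Measure.restrict_apply_univ, Real.volume_Icc, ENNReal.ofReal_eq_zero] at h1
    linarith
  · intro θ hθ δ Λ hδ hΛ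
    have hsin := Real.sin_nonneg_of_mem_Icc hθ
    have hρ : 0 < δ * Real.sin θ + δ ^ 2 := by positivity
    rw [map_measureReal_apply hgm measurableSet_closedBall, map_measureReal_apply hgm
      measurableSet_ball]
    have h1 : ν.real (g ⁻¹' closedBall θ (Λ * δ)) ≤
        ν.real (ball (h θ) (20 * Λ ^ 2 * (a * ((δ * Real.sin θ + δ ^ 2) / 10)))) := by
      refine ENNReal.toReal_mono (measure_ne_top _ _) (measure_mono_ae ?_)
      filter_upwards [hae] with x hx hx'
      have h2 := cos_up hθ (show |g x - θ| ≤ Λ * δ from hx')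
      show dist x (h θ) < _
      rw [hdist x hx]
      have h3 : Λ * δ * Real.sin θ + (Λ * δ) ^ 2 ≤ Λ ^ 2 * (δ * Real.sin θ + δ ^ 2) := by
        have : Λ * (δ * Real.sin θ) ≤ Λ ^ 2 * (δ * Real.sin θ) :=
          mul_le_mul_of_nonneg_right (by nlinarith) (by positivity)
        nlinarith
      have h4 : 0 < a * (Λ ^ 2 * (δ * Real.sin θ + δ ^ 2)) := by positivity
      have h5 := mul_le_mul_of_nonneg_left (h2.trans h3) ha.le
      nlinarith
    have h2 : ν.real (ball (h θ) (a * ((δ * Real.sin θ + δ ^ 2) / 10))) ≤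
        ν.real (g ⁻¹' ball θ δ) := by
      refine ENNReal.toReal_mono (measure_ne_top _ _) (measure_mono_ae ?_)
      filter_upwards [hae] with x hx hx'
      by_contra h3
      have h4 := cos_low hθ (hgI x) hδ (not_lt.1 h3)
      have h5 : dist x (h θ) < _ := hx'
      rw [hdist x hx] at h5
      exact absurd (mul_le_mul_of_nonneg_left h4 ha.le) (not_le.2 h5)
    have h3 := dbl_iter (hdbl _ (hhI θ)) hs.le
      (r := a * ((δ * Real.sin θ + δ ^ 2) / 10)) (Λ := 20 * Λ ^ 2) (by positivity) (by nlinarith)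
    refine h1.trans (h3.trans ?_)
    rw [show (2 * (20 * Λ ^ 2)) ^ s = 40 ^ s * Λ ^ (2 * s) by
      rw [pow_mul, ← mul_pow]; congr 1; ring]
    exact mul_le_mul_of_nonneg_left h2 (by positivity)
  · rw [natDegree_comp, natDegree_linear ha.ne', hdeg, mul_one]
  · rw [integral_map hgm.aemeasurable (Continuous.aestronglyMeasurable (by fun_prop)), ← hon j k]
    refine integral_congr_ae ?_
    filter_upwards [hae] with x hx
    have h1 : a * Real.cos (g x) + b = x := hhg x hx
    simp only [eval_comp, eval_add, eval_mul, eval_C, eval_X, h1]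
  · refine Measure.AbsolutelyContinuous.mk fun T hT h0 => ?_
    rw [Measure.map_apply hgm hT]
    have h1 : volume (h '' T) = 0 :=
      addHaar_image_eq_zero_of_differentiableOn_of_addHaar_eq_zero volume
        (Differentiable.differentiableOn (by fun_prop)) h0
    refine le_antisymm ((measure_mono_ae ?_).trans (hac h1).le) bot_le
    filter_upwards [hae] with x hx hx'
    exact ⟨g x, hx', hhg x hx⟩
  · refine Measure.AbsolutelyContinuous.mk fun T hT h0 => ?_
    rw [Measure.map_apply hgm hT] at h0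
    have h1 := hac' h0
    rw [Measure.restrict_apply (hgm hT)] at h1
    have h2 : volume (g '' (g ⁻¹' T ∩ Ioo α β)) = 0 := by
      refine addHaar_image_eq_zero_of_differentiableOn_of_addHaar_eq_zero volume
        (fun x hx => DifferentiableAt.differentiableWithinAt ?_)
        (measure_mono_null (inter_subset_inter_right _ Ioo_subset_Icc_self) h1)
      refine (Real.differentiableAt_arccos.2 ⟨ne_of_gt ?_, ne_of_lt ?_⟩).comp x
        (f := fun x => (x - b) / a) (by fun_prop)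
      · rw [lt_div_iff₀ ha]
        linarith [hx.2.1]
      · rw [div_lt_iff₀ ha]
        linarith [hx.2.2]
    rw [← Measure.restrict_congr_set Ioo_ae_eq_Icc, Measure.restrict_apply hT]
    refine measure_mono_null (fun θ hθ => ?_) h2
    have h3 := hgh θ (Ioo_subset_Icc_self hθ.2)
    have h4 : Real.cos θ < 1 := by
      rw [← Real.cos_zero]
      exact Real.cos_lt_cos_of_nonneg_of_le_pi le_rfl hθ.2.2.le hθ.2.1
    have h5 : -1 < Real.cos θ := by
      rw [← Real.cos_pi]
      exact Real.cos_lt_cos_of_nonneg_of_le_pi hθ.2.1.le le_rfl hθ.2.2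
    refine ⟨h θ, ⟨by rw [mem_preimage, h3]; exact hθ.1, ?_, ?_⟩, h3⟩
    · show α < a * Real.cos θ + b
      nlinarith
    · show a * Real.cos θ + b < β
      nlinarith
  · unfold cnt
    have h1 : ∑ k : Fin (n + 1), C (c k) * (p k).comp (C a * X + C b) =
        (∑ k : Fin (n + 1), C (c k) * p k).comp (C a * X + C b) := by
      simp [Polynomial.sum_comp]
    rw [h1, ← map_roots_comp_C_mul_X_add_C (∑ k : Fin (n + 1), C (c k) * p k) a b ha.ne'.isUnit,
      Multiset.toFinset_map, Finset.card_image_of_injective]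
    intro x y hxy
    exact mul_left_cancel₀ ha.ne' (add_right_cancel hxy)

end Pool.Agent.MP_f6b137_pr.H94
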